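import Pool.Agent.U503.EA.Stm

/-!
# The Cayley graph of a basis with one more vector
-/

set_option autoImplicit false

namespace Pool.Agent.U503.EA

open Finset Function Module SimpleGraph Pool.Agent.W111.LAR Pool.Agent.TH486.LAC Pool.Agent.Y647.LAC
  Pool.Agent.U503.VS

theorem lw_dec {p t : ℕ} [Fact p.Prime] {A κ : Type} [AddCommGroup A]
    [Module (ZMod p) A] [Finite A] [Fintype κ] (I : Fin t → A)
    (hI : LinearIndependent (ZMod p) I) (J : κ → (Fin t → ZMod p)) (hJ : Dec J)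
    (G : SimpleGraph A) (hG : ∀ a b, G.Adj a b ↔ a ≠ b ∧ ∃ j,
      b = a + Fintype.linearCombination (ZMod p) I (J j) ∨
      a = b + Fintype.linearCombination (ZMod p) I (J j)) :
    LW G (Fintype.card κ) (2 * Fintype.card κ / (p : ℝ) ^ t) := by
  classical
  have hp : p.Prime := Fact.out
  set Φ := Fintype.linearCombination (ZMod p) I with hΦ
  have hinj : LinearMap.ker Φ = ⊥ := by
    rw [LinearMap.ker_eq_bot]
    exact hI.fintypeLinearCombination_injective
  obtain ⟨Ψ, hΨ⟩ := LinearMap.exists_leftInverse_of_injective Φ hinj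
  have hle : ∀ v, Ψ.toAddMonoidHom (Φ.toAddMonoidHom v) = v := by
    intro v
    have := LinearMap.congr_fun hΨ v
    simpa using this
  obtain ⟨L, hL, hT, hE⟩ := hJ
  -- the values of the maps
  have hval1 : ∀ κ' ∈ L, ∀ v, ∃ i, κ' v = v + J i := by
    intro κ' hκ v
    have h1 : κ' v ∈ (univ : Finset κ).val.map (fun i => v + J i) := by
      rw [← hE v, Multiset.mem_coe]
      exact List.mem_map.2 ⟨κ', hκ, rfl⟩
    obtain ⟨i, _, hi⟩ := Multiset.mem_map.1 h1
    exact ⟨i, hi.symm⟩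
  have hval2 : ∀ v i, ∃ κ' ∈ L, κ' v = v + J i := by
    intro v i
    have h1 : v + J i ∈ (univ : Finset κ).val.map (fun i => v + J i) :=
      Multiset.mem_map.2 ⟨i, mem_univ i, rfl⟩
    rw [← hE v, Multiset.mem_coe] at h1
    exact List.mem_map.1 h1
  have hlf : ∀ κ' : (Fin t → ZMod p) → (Fin t → ZMod p), ∀ a i,
      κ' (Ψ a) = Ψ a + J i →
      lf Φ.toAddMonoidHom Ψ.toAddMonoidHom κ' a = a + Φ (J i) := by
    intro κ' a i h1
    unfold lf
    show a + Φ (κ' (Ψ a) - Ψ a) = a + Φ (J i)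
    rw [h1, add_sub_cancel_left]
  refine ⟨Fin L.length, inferInstance,
    fun j => MG (lf Φ.toAddMonoidHom Ψ.toAddMonoidHom (L.get j)), by simp [hL], ?_, ?_, ?_⟩
  · intro j a
    exact MG_deg (lf_inj hle (hT _ (List.get_mem L j)).inj) a
  · intro a
    have hpt : (0 : ℝ) < (p : ℝ) ^ t := by
      have : (0 : ℝ) < p := by exact_mod_cast hp.pos
      positivity
    have h1 : ∀ j ∈ (univ : Finset (Fin L.length)), (2 : ℝ) /
        csize (MG (lf Φ.toAddMonoidHom Ψ.toAddMonoidHom (L.get j))) a ≤ 2 / (p : ℝ) ^ t := by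
      intro j _
      have h2 : ((p ^ t : ℕ) : ℝ) ≤ csize (MG (lf Φ.toAddMonoidHom Ψ.toAddMonoidHom (L.get j))) a := by
        exact_mod_cast lf_size hle (hT _ (List.get_mem L j)) a
      rw [Nat.cast_pow] at h2
      exact div_le_div_of_nonneg_left (by norm_num) hpt h2
    refine (sum_le_sum h1).trans (le_of_eq ?_)
    rw [sum_const, card_univ, Fintype.card_fin, hL, nsmul_eq_mul]
    ring
  · ext a b
    rw [hG, iSup_adj]
    constructor
    · rintro ⟨hne, i, hi | hi⟩
      · obtain ⟨κ', hκ, hκ2⟩ := hval2 (Ψ a) i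
        obtain ⟨j, hj⟩ := List.get_of_mem hκ
        refine ⟨j, hne, Or.inl ?_⟩
        rw [hj, hlf κ' a i hκ2, hi]
      · obtain ⟨κ', hκ, hκ2⟩ := hval2 (Ψ b) i
        obtain ⟨j, hj⟩ := List.get_of_mem hκ
        refine ⟨j, hne, Or.inr ?_⟩
        rw [hj, hlf κ' b i hκ2, hi]
    · rintro ⟨j, hne, hi | hi⟩
      · obtain ⟨i, hi2⟩ := hval1 _ (List.get_mem L j) (Ψ a)
        exact ⟨hne, i, Or.inl (by rw [hi, hlf _ a i hi2])⟩
      · obtain ⟨i, hi2⟩ := hval1 _ (List.get_mem L j) (Ψ b)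
        exact ⟨hne, i, Or.inr (by rw [hi, hlf _ b i hi2])⟩

/-- One block: a set of `w + 1` elements with load `2 (w + 1) / p ^ w`. -/
theorem block (hEXT : S_EXT) (hSEL : S_SEL) {p n : ℕ} [Fact p.Prime] (hp5 : 5 ≤ p) {A : Type}
    [AddCommGroup A] [Module (ZMod p) A] [Finite A] (W : Submodule (ZMod p) A) (Q : Finset A)
    (hW : finrank (ZMod p) W = n + 2) (hQW : ∀ q ∈ Q, q ∈ W) (h0 : (0 : A) ∉ Q)
    (hneg : ∀ q ∈ Q, -q ∉ Q) (hcard : p ^ (n + 2) + p < 4 * Q.card) :
    ∃ V : Finset A, V ⊆ Q ∧ V.card = n + 3 ∧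
      LW (GrS V) (n + 3) (2 * (n + 3) / (p : ℝ) ^ (n + 2)) := by
  have hp : p.Prime := Fact.out
  have hcardO : Fintype.card (Option (Fin (n + 2))) = n + 3 := by simp
  rcases hEXT p hp hp5 n with h | h
  · obtain ⟨V, I, h1, h2, h3, h4⟩ := hSEL p n hp5 A W Q hW hQW h0 hneg hcard
      (Pi.single 0 2) (Or.inl rfl)
    refine ⟨V, h1, h2, ?_⟩
    have key := lw_dec I h3 (famD p (n + 1)) h (GrS V) (by
      intro a b
      rw [h4]
      have e : ∀ o : Option (Fin (n + 2)),
          Fintype.linearCombination (ZMod p) I (famD p (n + 1) o) =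
          o.elim (∑ i, (Pi.single 0 2 : Fin (n + 2) → ZMod p) i • I i) I := by
        intro o
        cases o with
        | none => simp [famD, Fintype.linearCombination_apply]
        | some i => simp [famD]
      simp only [e])
    rw [hcardO] at key
    push_cast at key
    exact key
  · obtain ⟨V, I, h1, h2, h3, h4⟩ := hSEL p n hp5 A W Q hW hQW h0 hneg hcard
      (Pi.single 0 2 - Pi.single 1 1) (Or.inr rfl)
    refine ⟨V, h1, h2, ?_⟩
    have key := lw_dec I h3 (famE p n) h (GrS V) (by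
      intro a b
      rw [h4]
      have e : ∀ o : Option (Fin (n + 2)),
          Fintype.linearCombination (ZMod p) I (famE p n o) =
          o.elim (∑ i, (Pi.single 0 2 - Pi.single 1 1 : Fin (n + 2) → ZMod p) i • I i) I := by
        intro o
        cases o with
        | none => rfl
        | some i => simp [famE]
      simp only [e])
    rw [hcardO] at key
    push_cast at key
    exact key

theorem GrS_union {A : Type} [AddCommGroup A] [DecidableEq A] (Y Z : Finset A) :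
    GrS (Y ∪ Z) = GrS Y ⊔ GrS Z := by
  ext a b
  rw [sup_adj]
  show a ≠ b ∧ _ ↔ (a ≠ b ∧ _) ∨ (a ≠ b ∧ _)
  rw [mem_union, mem_union]
  tauto

/-- Several blocks. -/
theorem blocks (hEXT : S_EXT) (hSEL : S_SEL) {p n : ℕ} [Fact p.Prime] (hp5 : 5 ≤ p) {A : Type}
    [AddCommGroup A] [Module (ZMod p) A] [Finite A] [DecidableEq A] (W : Submodule (ZMod p) A)
    (Q : Finset A)
    (hW : finrank (ZMod p) W = n + 2) (hQW : ∀ q ∈ Q, q ∈ W) (h0 : (0 : A) ∉ Q)
    (hneg : ∀ q ∈ Q, -q ∉ Q) : ∀ y : ℕ,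
    p ^ (n + 2) + p + 4 * ((y - 1) * (n + 3)) < 4 * Q.card →
    ∃ V : Finset A, V ⊆ Q ∧ V.card = y * (n + 3) ∧
      LW (GrS V) (y * (n + 3)) (y * (2 * (n + 3) / (p : ℝ) ^ (n + 2))) := by
  intro y
  induction y with
  | zero =>
    intro _
    refine ⟨∅, empty_subset _, by simp, ?_⟩
    have h2 : GrS (∅ : Finset A) = ⊥ := by
      ext a b
      simp [GrS]
    rw [h2]
    have := LW.bot (V := A)
    simpa using this
  | succ y ih =>
    intro hc
    rw [Nat.add_sub_cancel] at hc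
    obtain ⟨V, hV, hVc, hLW⟩ := ih (by
      have : (y - 1) * (n + 3) ≤ y * (n + 3) := Nat.mul_le_mul_right _ (by omega)
      omega)
    have hsd : (Q \ V).card + V.card = Q.card := card_sdiff_add_card_eq_card hV
    obtain ⟨V', hV', hVc', hLW'⟩ := block hEXT hSEL hp5 W (Q \ V) hW
      (fun q hq => hQW q (mem_sdiff.1 hq).1) (fun h => h0 (mem_sdiff.1 h).1)
      (fun q hq h => hneg q (mem_sdiff.1 hq).1 (mem_sdiff.1 h).1) (by omega)
    have hdis : Disjoint V V' := by
      rw [Finset.disjoint_left]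
      intro a ha ha'
      exact (mem_sdiff.1 (hV' ha')).2 ha
    refine ⟨V ∪ V', union_subset hV (hV'.trans sdiff_subset), ?_, ?_⟩
    · rw [card_union_of_disjoint hdis, hVc, hVc']
      ring
    · rw [GrS_union]
      have h := hLW.sup hLW'
      have e1 : y * (n + 3) + (n + 3) = (y + 1) * (n + 3) := by ring
      have e2 : (y : ℝ) * (2 * (n + 3) / (p : ℝ) ^ (n + 2)) + 2 * (n + 3) / (p : ℝ) ^ (n + 2) =
          ((y + 1 : ℕ) : ℝ) * (2 * (n + 3) / (p : ℝ) ^ (n + 2)) := by
        push_cast; ring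
      rw [e1, e2] at h
      exact h

end Pool.Agent.U503.EA
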