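import Pool.Agent.U503.EA.FamX

/-!
# All Cayley graphs of vector spaces over `F_p`
-/

set_option autoImplicit false

namespace Pool.Agent.U503.EA

open Finset Function Module SimpleGraph Pool.Agent.W111.LAR Pool.Agent.TH486.LAC Pool.Agent.Y647.LAC
  Pool.Agent.U503.VS

theorem ld_every (hEXT : S_EXT) (hSEL : S_SEL) (hREST : S_REST) (hNUM : S_NUM) (hEQ : S_EQ)
    {p : ℕ} [Fact p.Prime] (hp5 : 5 ≤ p) {A : Type} [AddCommGroup A]
    [Module (ZMod p) A] [Finite A] (S : Finset A) (X : SimpleGraph A)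
    (hX : ∀ v w, X.Adj v w ↔ w - v ∈ S) (hne : S.Nonempty) :
    LD X (S.card / 2) := by
  classical
  have hp : p.Prime := Fact.out
  have hfd : FiniteDimensional (ZMod p) A := Module.Finite.of_finite
  obtain ⟨h0, hneg⟩ := conn_facts hX
  have h2 : ∀ s ∈ S, -s ≠ s := fun s hs => no_two hp5 (fun h => h0 (h ▸ hs))
  obtain ⟨T, hTS, hcov, hTn, hcard⟩ := half_set S hneg h2
  have hTpos : 1 ≤ T.card := by
    have := hne.card_pos
    omega
  have hT0 : (0 : A) ∉ T := fun h => h0 (hTS h)
  have hrank : ∀ B ⊆ T, B.Nonempty → 1 ≤ finrank (ZMod p) ↥(Submodule.span (ZMod p) (B : Set A)) := by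
    intro B hB hBne
    obtain ⟨x, hx⟩ := hBne
    have hx0 : x ≠ 0 := fun h => h0 (h ▸ hTS (hB hx))
    have h5 : Submodule.span (ZMod p) {x} ≤ Submodule.span (ZMod p) (B : Set A) :=
      Submodule.span_mono (by simpa using hx)
    have h6 := Submodule.finrank_mono h5
    rw [finrank_span_singleton hx0] at h6
    exact h6
  have hex : ∃ k : ℕ, 0 < k ∧ ∀ B ⊆ T, B.card ≤ k * finrank (ZMod p) ↥(Submodule.span (ZMod p)
      (B : Set A)) := by
    refine ⟨T.card, hTpos, fun B hB => ?_⟩
    rcases B.eq_empty_or_nonempty with h | h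
    · rw [h]; simp
    · calc B.card ≤ T.card * 1 := by rw [mul_one]; exact card_le_card hB
        _ ≤ _ := Nat.mul_le_mul_left _ (hrank B hB h)
  obtain ⟨k, hk⟩ : ∃ k, k = Nat.find hex := ⟨_, rfl⟩
  have hk1 : 0 < k ∧ ∀ B ⊆ T, B.card ≤ k * finrank (ZMod p) ↥(Submodule.span (ZMod p)
      (B : Set A)) := hk ▸ Nat.find_spec hex
  have hA0 : ∃ B ⊆ T, 1 ≤ finrank (ZMod p) ↥(Submodule.span (ZMod p) (B : Set A)) ∧
      k * finrank (ZMod p) ↥(Submodule.span (ZMod p) (B : Set A)) + 1 ≤
        B.card + finrank (ZMod p) ↥(Submodule.span (ZMod p) (B : Set A)) := by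
    rcases Nat.lt_or_ge 1 k with h | h
    · have h5 : ¬ (0 < k - 1 ∧ ∀ B ⊆ T, B.card ≤ (k - 1) * finrank (ZMod p)
          ↥(Submodule.span (ZMod p) (B : Set A))) := Nat.find_min hex (by omega)
      push Not at h5
      obtain ⟨B, hB, hB2⟩ := h5 (by omega)
      have hBne : B.Nonempty := card_pos.1 (by omega)
      refine ⟨B, hB, hrank B hB hBne, ?_⟩
      obtain ⟨m, rfl⟩ : ∃ m, k = m + 1 := ⟨k - 1, by omega⟩
      rw [Nat.add_sub_cancel] at hB2
      rw [add_mul, one_mul]
      omega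
    · have h5 : k = 1 := by omega
      refine ⟨T, Subset.refl _, hrank T (Subset.refl _) (card_pos.1 (by omega)), ?_⟩
      rw [h5, one_mul]
      omega
  obtain ⟨B₀, hB₀T, hB1', hB2'⟩ := hA0
  -- the flat closure
  obtain ⟨B, hBdef⟩ : ∃ B, B = T.filter (fun x => x ∈ Submodule.span (ZMod p) (B₀ : Set A)) :=
    ⟨_, rfl⟩
  have hBT : B ⊆ T := by rw [hBdef]; exact filter_subset _ _
  have hB₀B : B₀ ⊆ B := by
    intro x hx
    rw [hBdef]
    exact mem_filter.2 ⟨hB₀T hx, Submodule.subset_span hx⟩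
  have hspan : Submodule.span (ZMod p) (B : Set A) = Submodule.span (ZMod p) (B₀ : Set A) := by
    apply le_antisymm
    · rw [Submodule.span_le]
      intro x hx
      rw [hBdef] at hx
      exact (mem_filter.1 (mem_coe.1 hx)).2
    · exact Submodule.span_mono (coe_subset.2 hB₀B)
  have hBcard := card_le_card hB₀B
  rw [← hspan] at hB1' hB2'
  obtain ⟨W, hWdef⟩ : ∃ W, W = Submodule.span (ZMod p) (B : Set A) := ⟨_, rfl⟩
  obtain ⟨ρ, hρ⟩ : ∃ ρ, ρ = finrank (ZMod p) W := ⟨_, rfl⟩
  have hB1 : 1 ≤ ρ := by rw [hρ, hWdef]; exact hB1'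
  have hB2 : k * ρ + 1 ≤ B.card + ρ := by
    rw [hρ, hWdef]; omega
  have hle : B.card ≤ k * ρ := by
    rw [hρ, hWdef]; exact hk1.2 B hBT
  have hBW : ∀ q ∈ B, q ∈ W := by
    intro q hq
    rw [hWdef]
    exact Submodule.subset_span hq
  have hTB : ∀ q ∈ T \ B, q ∉ W := by
    intro q hq hqW
    rw [mem_sdiff] at hq
    apply hq.2
    rw [hBdef]
    refine mem_filter.2 ⟨hq.1, ?_⟩
    rw [← hspan, ← hWdef]
    exact hqW
  -- the size of `B`
  have hBsmall : 2 * B.card + 1 ≤ p ^ ρ := by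
    have hdis : Disjoint B (B.image (fun x => -x)) := by
      rw [Finset.disjoint_left]
      intro s hs hs2
      obtain ⟨t, ht, h⟩ := mem_image.1 hs2
      exact hTn t (hBT ht) (by rw [h]; exact hBT hs)
    have h0' : (0 : A) ∉ B ∪ B.image (fun x => -x) := by
      intro h
      rcases mem_union.1 h with h | h
      · exact hT0 (hBT h)
      · obtain ⟨t, ht, h⟩ := mem_image.1 h
        rw [neg_eq_zero] at h
        rw [h] at ht
        exact hT0 (hBT ht)
    have hc : (insert (0 : A) (B ∪ B.image (fun x => -x))).card = 2 * B.card + 1 := by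
      rw [card_insert_of_notMem h0', card_union_of_disjoint hdis,
        card_image_of_injective _ neg_injective]
      ring
    have hsub : ((insert (0 : A) (B ∪ B.image (fun x => -x)) : Finset A) : Set A) ⊆ (W : Set A) := by
      intro s hs
      rw [mem_coe, mem_insert, mem_union] at hs
      rcases hs with h | h | h
      · rw [h]; exact W.zero_mem
      · exact hBW s h
      · obtain ⟨t, ht, rfl⟩ := mem_image.1 h
        exact W.neg_mem (hBW t ht)
    have h5 := Set.ncard_le_ncard hsub (Set.toFinite _)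
    rw [Set.ncard_coe_finset, hc] at h5
    have h6 : (W : Set A).ncard = p ^ ρ := by
      have h7 : Nat.card W = p ^ ρ := by
        have := Module.natCard_eq_pow_finrank (K := ZMod p) (V := W)
        rw [this, Nat.card_eq_fintype_card, ZMod.card, hρ]
      rw [← h7]
      exact (Nat.card_coe_set_eq _).symm
    rw [h6] at h5
    exact h5
  -- Cayley graph
  have hXT : X = GrS T := by
    ext a b
    rw [hX]
    show _ ↔ a ≠ b ∧ _
    constructor
    · intro h
      have hab : a ≠ b := by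
        rintro rfl
        rw [sub_self] at h
        exact h0 h
      rcases hcov _ h with h5 | h5
      · exact ⟨hab, Or.inl h5⟩
      · rw [neg_sub] at h5
        exact ⟨hab, Or.inr h5⟩
    · rintro ⟨_, h | h⟩
      · exact hTS h
      · have := hneg _ (hTS h)
        rwa [neg_sub] at this
  have hN2 : T.card = S.card / 2 := by omega
  -- the equitable route
  have hequit : (∀ r : Fin k → ℕ, (∀ i j, r i ≤ r j + 1) → B.card ≤ ∑ j, min ρ (r j) →
      ∑ j, r j = T.card → ∑ j, (2 * (r j) : ℝ) / (p : ℝ) ^ (r j) ≤ 1) → LD X (S.card / 2) := by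
    intro hnum
    obtain ⟨c, hc1, hc2⟩ := equitable (K := ZMod p) hk1.1 hk1.2
    have hsumT : ∑ j, (T.filter (fun x => c x = j)).card = T.card :=
      (card_eq_sum_card_fiberwise (fun x _ => mem_univ _)).symm
    have hload : ∑ j, (2 * ((T.filter (fun x => c x = j)).card : ℕ) : ℝ) /
        (p : ℝ) ^ (T.filter (fun x => c x = j)).card ≤ 1 := by
      refine hnum (fun j => (T.filter (fun x => c x = j)).card) hc2 ?_ hsumT
      have h5 : B.card = ∑ j, (B.filter (fun x => c x = j)).card :=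
        card_eq_sum_card_fiberwise (fun x _ => mem_univ _)
      rw [h5]
      refine sum_le_sum fun j _ => le_min ?_ ?_
      · have h6 := (ind_lin (hc1 j))
        have h7 : LinearIndependent (ZMod p) (fun y : (B.filter (fun x => c x = j) : Finset A) =>
            (y : A)) :=
          h6.comp (fun y : (B.filter (fun x => c x = j) : Finset A) =>
            (⟨y.1, filter_subset_filter _ hBT y.2⟩ : (T.filter (fun x => c x = j) : Finset A))) (by
            intro y y' h
            have := congrArg Subtype.val h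
            exact Subtype.ext this)
        have h8 := finrank_span_eq_card h7
        rw [Fintype.card_coe] at h8
        rw [← h8, hρ, hWdef]
        apply Submodule.finrank_mono
        apply Submodule.span_mono
        rintro _ ⟨y, rfl⟩
        exact (mem_filter.1 y.2).1
      · exact card_le_card (filter_subset_filter _ hBT)
    have hXG : X = ⨆ j, GrS (T.filter (fun x => c x = j)) := by
      rw [hXT]
      ext a b
      rw [iSup_adj]
      constructor
      · rintro ⟨hab, h | h⟩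
        · exact ⟨c (b - a), hab, Or.inl (mem_filter.2 ⟨h, rfl⟩)⟩
        · exact ⟨c (a - b), hab, Or.inr (mem_filter.2 ⟨h, rfl⟩)⟩
      · rintro ⟨j, hab, h | h⟩
        · exact ⟨hab, Or.inl (mem_filter.1 h).1⟩
        · exact ⟨hab, Or.inr (mem_filter.1 h).1⟩
    have hLW := lw_iSup (fun j => GrS (T.filter (fun x => c x = j)))
      (fun j => (T.filter (fun x => c x = j)).card)
      (fun j => (2 * ((T.filter (fun x => c x = j)).card : ℕ) : ℝ) /
        (p : ℝ) ^ (T.filter (fun x => c x = j)).card)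
      (fun j => lw_ind hp5 _ (ind_lin (hc1 j)))
    rw [hsumT, hN2, ← hXG] at hLW
    exact hLW.ld hload
  by_cases hmain : 2 * B.card + 2 * (ρ - 1) * (p - 1) * (k * ρ - B.card) ≤ p ^ ρ
  · exact hequit (fun r h1 h3 _ => num hp5 r hB1 h1 h3 hB2 hle hmain)
  push Not at hmain
  obtain ⟨x, hx⟩ : ∃ x, B.card + x = k * ρ := ⟨k * ρ - B.card, by omega⟩
  have hxe : k * ρ - B.card = x := by omega
  rw [hxe] at hmain
  have hx1 : 1 ≤ x := by
    rcases Nat.eq_zero_or_pos x with h | h
    · rw [h] at hmain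
      simp only [mul_zero, add_zero] at hmain
      omega
    · exact h
  have hxρ : x + 1 ≤ ρ := by omega
  obtain ⟨y, K, hy1, hKy, hb, hpK, hρK, hlast⟩ := hNUM p ρ k B.card x hp5 hx1 hxρ hx hBsmall hmain
  by_cases hO : (T \ B).card ≤ K
  · -- few elements outside
    obtain ⟨n, hn⟩ : ∃ n, ρ = n + 2 := ⟨ρ - 2, by omega⟩
    have hWn : finrank (ZMod p) W = n + 2 := by rw [← hρ, hn]
    obtain ⟨V, hVB, hVc, hVL⟩ := blocks hEXT hSEL hp5 W B hWn hBW (fun h => hT0 (hBT h))
      (fun q hq h => hTn q (hBT hq) (hBT h)) y (by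
        have e : ρ + 1 = n + 3 := by omega
        rw [hn] at hlast
        exact hlast)
    have hsd : (B \ V).card + V.card = B.card := card_sdiff_add_card_eq_card hVB
    have hQc : (B \ V).card = K * ρ := by
      have e : y * (ρ + 1) = y * (n + 3) := by rw [hn]
      omega
    have hR := hREST p ρ K hp5 (by omega) A W (B \ V) (T \ B) ((B \ V) ∪ (T \ B)) hρ.symm
      (fun q hq => hBW q (mem_sdiff.1 hq).1) (fun h => hT0 (hBT (mem_sdiff.1 h).1))
      (fun q hq h => hTn q (hBT (mem_sdiff.1 hq).1) (hBT (mem_sdiff.1 h).1)) hQc hpK hTB hO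
      (fun a => mem_union)
    have hall := hVL.sup hR
    rw [← GrS_union] at hall
    have eT : V ∪ ((B \ V) ∪ (T \ B)) = T := by
      rw [← union_assoc, union_sdiff_of_subset hVB, union_sdiff_of_subset hBT]
    rw [eT, ← hXT] at hall
    have eN : y * (n + 3) + (K * ρ + (T \ B).card) = S.card / 2 := by
      have h5 : (T \ B).card + B.card = T.card := card_sdiff_add_card_eq_card hBT
      have e : y * (ρ + 1) = y * (n + 3) := by rw [hn]
      omega
    rw [eN] at hall
    refine hall.ld ?_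
    -- the load
    have hp' : (5 : ℝ) ≤ p := by exact_mod_cast hp5
    have hp0 : (0 : ℝ) < p := by linarith
    have hpρ : (0 : ℝ) < (p : ℝ) ^ ρ := by positivity
    have en : (n : ℝ) = ρ - 2 := by
      have e0 : (ρ : ℝ) = n + 2 := by exact_mod_cast hn
      linarith
    have hc0 : (0 : ℝ) ≤ ((T \ B).card : ℝ) := Nat.cast_nonneg _
    have hρ1 : (2 : ℝ) ≤ ρ := by
      have : 2 ≤ ρ := by omega
      exact_mod_cast this
    have hb' : (B.card : ℝ) = K * ρ + y * (ρ + 1) := by exact_mod_cast hb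
    have hs' : 2 * (B.card : ℝ) + 1 ≤ (p : ℝ) ^ ρ := by exact_mod_cast hBsmall
    have e1 : (2 * ((ρ : ℝ) + 1)) / (p : ℝ) ^ (ρ + 1) ≤ 2 * ρ / (p : ℝ) ^ ρ := by
      rw [pow_succ, div_le_div_iff₀ (by positivity) hpρ]
      have : (ρ : ℝ) + 1 ≤ ρ * p := by nlinarith
      nlinarith
    have e2 : ((T \ B).card : ℝ) * (2 * ((ρ : ℝ) + 1) / (p : ℝ) ^ (ρ + 1)) ≤
        ((T \ B).card : ℝ) * (2 * ρ / (p : ℝ) ^ ρ) := mul_le_mul_of_nonneg_left e1 hc0
    have e3 : (y : ℝ) * (2 * ((n : ℝ) + 3) / (p : ℝ) ^ (n + 2)) =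
        y * (2 * (ρ + 1) / (p : ℝ) ^ ρ) := by
      rw [← hn, en]; ring
    rw [e3]
    calc (y : ℝ) * (2 * (ρ + 1) / (p : ℝ) ^ ρ) + (((K : ℝ) - (T \ B).card) * (2 * ρ / (p : ℝ) ^ ρ) +
          (T \ B).card * (2 * (ρ + 1) / (p : ℝ) ^ (ρ + 1)))
        ≤ y * (2 * (ρ + 1) / (p : ℝ) ^ ρ) + (((K : ℝ) - (T \ B).card) * (2 * ρ / (p : ℝ) ^ ρ) +
          (T \ B).card * (2 * ρ / (p : ℝ) ^ ρ)) := by linarith
      _ = (2 * (K * ρ + y * (ρ + 1))) / (p : ℝ) ^ ρ := by
          field_simp
          ring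
      _ ≤ 1 := by
          rw [div_le_one hpρ, ← hb']
          linarith
  · -- many elements outside
    push Not at hO
    refine hequit (fun r h1 _ h3 => hEQ p ρ k B.card x r hp5 hB1 h1 hx hxρ hBsmall ?_)
    have h5 : (T \ B).card + B.card = T.card := card_sdiff_add_card_eq_card hBT
    rw [h3]
    omega

end Pool.Agent.U503.EA
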