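import Pool.Agent.U503.VS.Main

/-!
# Project EA: all Cayley graphs of elementary abelian `p`-groups, `p ≥ 5`
-/

set_option autoImplicit false

namespace Pool.Agent.U503.EA

open Finset Function Module SimpleGraph Pool.Agent.TH486.LAC Pool.Agent.Y647.LAC Pool.Agent.U503.VS

/-- The arcs `v → v + I i` are distributed over transitive maps. -/
def Dec {M ι : Type} [AddCommGroup M] [Fintype ι] (I : ι → M) : Prop :=
  ∃ L : List (M → M), L.length = Fintype.card ι ∧ (∀ κ ∈ L, Trans κ) ∧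
    ∀ v, ((L.map (fun κ => κ v) : List M) : Multiset M) =
      (univ : Finset ι).val.map (fun i => v + I i)

/-- The standard basis and `2 e₀`. -/
def famD (p n : ℕ) (o : Option (Fin (n + 1))) : Fin (n + 1) → ZMod p :=
  o.elim (Pi.single 0 2) (fun i => Pi.single i 1)

/-- The standard basis and `2 e₀ - e₁`. -/
def famE (p n : ℕ) (o : Option (Fin (n + 2))) : Fin (n + 2) → ZMod p :=
  o.elim (Pi.single 0 2 - Pi.single 1 1) (fun i => Pi.single i 1)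

/-- Products of two decompositions with the same number of maps. -/
def S_PP : Prop := ∀ (p a b : ℕ), p.Prime → 5 ≤ p → 1 ≤ b → b ≤ a →
  ∀ (M N : Type) [AddCommGroup M] [AddCommGroup N] (ι κ : Type) [Fintype ι] [Fintype κ]
    (I : ι → M) (J : κ → N), Nat.card M = p ^ a → Nat.card N = p ^ b →
    Fintype.card ι = Fintype.card κ → Dec I → Dec J →
    Dec (Sum.elim (fun i => ((I i, 0) : M × N)) (fun j => ((0, J j) : M × N)))

/-- Products with a standard torus with one more map. -/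
def S_PT : Prop := ∀ (p m b : ℕ), p.Prime → 5 ≤ p → 1 ≤ m → 1 ≤ b → b ≤ m + 1 →
  ∀ (N : Type) [AddCommGroup N] (κ : Type) [Fintype κ] (J : κ → N),
    Nat.card N = p ^ b → Fintype.card κ = m → Dec J →
    Dec (Sum.elim (fun i : Fin (m + 1) => ((Pi.single i 1, 0) : (Fin (m + 1) → ZMod p) × N))
      (fun j => ((0, J j) : (Fin (m + 1) → ZMod p) × N)))

/-- The plane with three directions `e₀, e₁, 2 e₀ - e₁`. -/
def S_BE : Prop := ∀ p : ℕ, p.Prime → 5 ≤ p → Dec (famE p 0)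

/-- The standard basis with one more vector. -/
def S_EXT : Prop := ∀ p : ℕ, p.Prime → 5 ≤ p → ∀ n : ℕ, Dec (famD p (n + 1)) ∨ Dec (famE p n)

/-- Recursion. -/
def S_ASM : Prop := S_PP → S_PT → S_BE → S_EXT

/-- Selection of a basis and one more vector in a large set. -/
def S_SEL : Prop := ∀ (p n : ℕ) [Fact p.Prime], 5 ≤ p → ∀ (A : Type) [AddCommGroup A]
  [Module (ZMod p) A] [Finite A] (W : Submodule (ZMod p) A) (Q : Finset A),
  finrank (ZMod p) W = n + 2 → (∀ q ∈ Q, q ∈ W) → (0 : A) ∉ Q → (∀ q ∈ Q, -q ∉ Q) →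
  p ^ (n + 2) + p < 4 * Q.card →
  ∀ r : Fin (n + 2) → ZMod p, (r = Pi.single 0 2 ∨ r = Pi.single 0 2 - Pi.single 1 1) →
  ∃ (V : Finset A) (I : Fin (n + 2) → A), V ⊆ Q ∧ V.card = n + 3 ∧
    LinearIndependent (ZMod p) I ∧
    ∀ a b, (GrS V).Adj a b ↔ a ≠ b ∧ ∃ o : Option (Fin (n + 2)),
      b = a + o.elim (∑ i, r i • I i) I ∨ a = b + o.elim (∑ i, r i • I i) I

/-- The remaining part of a large set in `W` and a few vectors outside `W`. -/
def S_REST : Prop := ∀ (p w K : ℕ) [Fact p.Prime], 5 ≤ p → 2 ≤ w → ∀ (A : Type) [AddCommGroup A]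
  [Module (ZMod p) A] [Finite A] (W : Submodule (ZMod p) A) (Q O U : Finset A),
  finrank (ZMod p) W = w → (∀ q ∈ Q, q ∈ W) → (0 : A) ∉ Q → (∀ q ∈ Q, -q ∉ Q) →
  Q.card = K * w → p ^ (w - 1) ≤ K * w → (∀ q ∈ O, q ∉ W) → O.card ≤ K →
  (∀ a, a ∈ U ↔ a ∈ Q ∨ a ∈ O) →
  LW (GrS U) (K * w + O.card) (((K : ℝ) - O.card) * (2 * w / (p : ℝ) ^ w) +
    O.card * (2 * (w + 1) / (p : ℝ) ^ (w + 1)))

/-- Numerical facts. -/
def S_NUM : Prop := ∀ p w k b x : ℕ, 5 ≤ p → 1 ≤ x → x + 1 ≤ w → b + x = k * w →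
  2 * b + 1 ≤ p ^ w → p ^ w < 2 * b + 2 * (w - 1) * (p - 1) * x →
  ∃ y K : ℕ, 1 ≤ y ∧ K + y + 1 = k ∧ b = K * w + y * (w + 1) ∧ p ^ (w - 1) ≤ K * w ∧ w ≤ K ∧
    p ^ w + p + 4 * ((y - 1) * (w + 1)) < 4 * b

/-- The load of an equitable partition of a larger set. -/
def S_EQ : Prop := ∀ (p w k b x : ℕ) (r : Fin k → ℕ), 5 ≤ p → 1 ≤ w → (∀ i j, r i ≤ r j + 1) →
  b + x = k * w → x + 1 ≤ w → 2 * b + 1 ≤ p ^ w → k * w + 2 ≤ ∑ j, r j →
  ∑ j, (2 * (r j) : ℝ) / (p : ℝ) ^ (r j) ≤ 1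

end Pool.Agent.U503.EA
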